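import Pool.Agent.helper95.T6.SpecE

set_option autoImplicit false

/-! Row t6l:ELB (MP_16912e_nt): the lower bound in the box and the class -/

namespace Pool.Agent.T6

open Finset Pool.Agent.helper3.FT Pool.Agent.T5

theorem ELB_Rg (η N Y Y₂ : ℝ) (hη : 0 < η) (hN : 2 ≤ N) (h : Rg η N Y Y₂) : 0 < Y := by
  have hN1 : 1 < N := by linarith
  have hNp : 0 < N := by linarith
  have hP : 0 < Y * Y₂ := lt_of_lt_of_le (Real.rpow_pos_of_pos hNp _) h.r4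
  by_contra hY
  have hY' : Y ≤ 0 := not_lt.1 hY
  have hY0 : Y < 0 := by
    rcases hY'.lt_or_eq with h1 | h1
    · exact h1
    · rw [h1, zero_mul] at hP
      exact absurd hP (lt_irrefl _)
  have h1 : 1 < N ^ η := Real.one_lt_rpow hN1 hη
  have h2 : N ^ η * Y < 1 * Y := mul_lt_mul_of_neg_right h1 hY0
  have h3 := h.r1
  have h4 := h.r2
  linarith

theorem ELB_Rg' (η η' N Y Y₂ : ℝ) (hη : η ≤ η') (hN : 1 ≤ N) (hY : 0 ≤ Y) (h : Rg η N Y Y₂) :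
    Rg η' N Y Y₂ := by
  obtain ⟨h1, h2, h3, h4⟩ := h
  refine ⟨h1, le_trans h2 ?_, h3, le_trans ?_ h4⟩
  · exact mul_le_mul_of_nonneg_right (Real.rpow_le_rpow_of_exponent_le hN hη) hY
  · exact Real.rpow_le_rpow_of_exponent_le hN (by linarith)

open Classical in
theorem ELB (hEPL : EPL_stmt) (hESN : ESN_stmt) (hEPC : EPC_stmt) (hESZ : ESZ_stmt) (hENL : ENL_stmt) :
    ELB_stmt := by
  rintro ⟨y₀, B, C₀, τ, hy₀, hC₀, hτ, hτ1, hLFS⟩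
  obtain ⟨CP, hCP, hPL⟩ := hEPL
  obtain ⟨CS, hCS, hS⟩ := hESN y₀ B C₀ τ hy₀ hC₀ hτ hτ1 hLFS
  obtain ⟨cc, hcc, hPC⟩ := hEPC
  obtain ⟨η, c, hη, hη1, hc, hNL⟩ := hENL B τ hτ
  have hCP0 : 0 < CP := by linarith
  refine ⟨η, cc * c / CP, hη, by positivity, ?_⟩
  intro e he
  obtain ⟨X₀, hX₀⟩ := hPC e he
  obtain ⟨C₁, N₀, hC₁, hNL⟩ := hNL e he
  obtain ⟨N₀', hZ⟩ := hESZ (max X₀ 1)
  have hCC : 1 ≤ CP * CS * C₁ := one_le_mul_of_one_le_of_one_le (one_le_mul_of_one_le_of_one_le hCP hCS) hC₁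
  refine ⟨2 * (CP * CS * C₁), max (max N₀ N₀') 2, by linarith, ?_⟩
  intro N Y Y₂ hN hRg F hF
  have hN0 : N₀ ≤ N := le_trans (le_trans (le_max_left _ _) (le_max_left _ _)) hN
  have hN0' : N₀' ≤ N := le_trans (le_trans (le_max_right _ _) (le_max_left _ _)) hN
  have hN2 : 2 ≤ N := le_trans (le_max_right _ _) hN
  have hNp : 0 < N := by linarith
  have hY0 : 0 < Y := ELB_Rg η N Y Y₂ hη hN2 hRg
  have hP : 0 < Y * Y₂ := lt_of_lt_of_le (Real.rpow_pos_of_pos hNp _) hRg.r4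
  obtain ⟨-, z1, z2, z3, z4, -, -⟩ := hZ N Y Y₂ hN0' (ELB_Rg' η (1 / 100) N Y Y₂ hη1 (by linarith) hY0.le hRg)
  have hsN : 1 ≤ sN N Y Y₂ := le_trans (le_max_right _ _) z3
  have hsK : 1 ≤ sK N Y Y₂ := le_trans (le_max_right _ _) z4
  have hsN' : X₀ ≤ sN N Y Y₂ := le_trans (le_max_left _ _) z3
  have hsK' : X₀ ≤ sK N Y Y₂ := le_trans (le_max_left _ _) z4
  obtain ⟨N₁, K₁, L, L', T, b, ρ, a1, a2, a3, a4, hEB, hbB, a5, a6, a7, a8, a9, a10⟩ := hNL N Y Y₂ hN0 hRg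
  have heR : (0 : ℝ) < e := by exact_mod_cast he
  have hT1 : (1 : ℝ) ≤ T := by exact_mod_cast hEB.T1
  have hT0 : (0 : ℝ) < T := by linarith
  have hN10 : (0 : ℝ) < N₁ := by exact_mod_cast hEB.N1
  have hK10 : (0 : ℝ) < K₁ := by exact_mod_cast hEB.K1
  have hL0 : (0 : ℝ) < L := by exact_mod_cast hEB.L1
  have hL0' : (0 : ℝ) < L' := by exact_mod_cast hEB.L1'
  have hρ := hEB.ρ0
  -- the pairs
  set W : Finset (ℕ × ℕ) := (Icc 1 N₁ ×ˢ Icc 1 K₁).filter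
    (fun q => 49 / 100 * sN N Y Y₂ < (q.1 : ℝ) ∧ 16 / 100 * sK N Y Y₂ < (q.2 : ℝ) ∧ Nat.Coprime q.1 q.2 ∧
      (e : ℤ) ∣ (q.1 : ℤ) - 1 ∧ (e : ℤ) ∣ (q.2 : ℤ) - 1) with hW
  have hWm : ∀ q : ℕ × ℕ, q ∈ W → (1 ≤ q.1 ∧ q.1 ≤ N₁ ∧ 1 ≤ q.2 ∧ q.2 ≤ K₁) ∧
      49 / 100 * sN N Y Y₂ < (q.1 : ℝ) ∧ 16 / 100 * sK N Y Y₂ < (q.2 : ℝ) ∧ Nat.Coprime q.1 q.2 ∧
      (e : ℤ) ∣ (q.1 : ℤ) - 1 ∧ (e : ℤ) ∣ (q.2 : ℤ) - 1 := by
    intro q hq
    rw [hW, mem_filter, mem_product, mem_Icc, mem_Icc] at hq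
    obtain ⟨⟨⟨h1, h2⟩, h3, h4⟩, h5⟩ := hq
    exact ⟨⟨h1, h2, h3, h4⟩, h5⟩
  have hbig : ∀ q : ℕ × ℕ, q ∈ W → N₁ < 2 * q.1 ∧ K₁ < 2 * q.2 := by
    intro q hq
    obtain ⟨-, h1, h2, -⟩ := hWm q hq
    constructor
    · have : (N₁ : ℝ) < ((2 * q.1 : ℕ) : ℝ) := by
        push_cast
        linarith
      exact_mod_cast this
    · have : (K₁ : ℝ) < ((2 * q.2 : ℕ) : ℝ) := by
        push_cast
        linarith
      exact_mod_cast this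
  have hWsub : W ⊆ pairs N₁ K₁ 1 := by
    intro q hq
    obtain ⟨⟨h1, h2, h3, h4⟩, -, -, h5, -⟩ := hWm q hq
    obtain ⟨h6, h7⟩ := hbig q hq
    unfold pairs
    rw [mem_filter, mem_product, mem_Icc, mem_Icc]
    exact ⟨⟨⟨h1, h2⟩, h3, h4⟩, h6, h7, h5, one_dvd _⟩
  have hWc : cc / (e : ℝ) ^ 2 * (sN N Y Y₂ * sK N Y Y₂) ≤ (W.card : ℝ) := by
    refine hX₀ _ _ hsN' hsK' W ?_
    intro n k h1 h2 h3 h4 h5 h6 h7
    rw [hW, mem_filter, mem_product, mem_Icc, mem_Icc]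
    refine ⟨⟨⟨?_, ?_⟩, ?_, ?_⟩, h1, h3, h5, h6, h7⟩
    · have : (0 : ℝ) < n := by linarith
      exact_mod_cast this
    · have : (n : ℝ) < ((N₁ + 1 : ℕ) : ℝ) := by
        push_cast
        linarith
      have h8 : n < N₁ + 1 := by exact_mod_cast this
      show n ≤ N₁
      omega
    · have : (0 : ℝ) < k := by linarith
      exact_mod_cast this
    · have : (k : ℝ) < ((K₁ + 1 : ℕ) : ℝ) := by
        push_cast
        linarith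
      have h8 : k < K₁ + 1 := by exact_mod_cast this
      show k ≤ K₁
      omega
  -- one pair
  have hex : ∀ q ∈ W, ∃ a : ℤ × ℤ × ℤ, RT q.1 q.2 1 1 1 a ∧
      (L : ℝ) * L' / (CP * T) ≤ (F.filter (fun t => t.1 = q)).card +
        CP / T * (√(L * L' : ℝ) * NS L L' T e q.1 q.2 a) := by
    intro q hq
    obtain ⟨⟨h1, h2, h3, h4⟩, h5, h6, h7, h8, h9⟩ := hWm q hq
    obtain ⟨h10, h11⟩ := hbig q hq
    obtain ⟨a, ha1, ha2⟩ := hPL q.1 q.2 e h1 h3 he h7 h8 h9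
    refine ⟨a, ha1, ?_⟩
    have hq1 : (q.1 : ℝ) ≤ N₁ := by exact_mod_cast h2
    have hq2 : (q.2 : ℝ) ≤ K₁ := by exact_mod_cast h4
    have hq10 : (0 : ℝ) < q.1 := by exact_mod_cast h1
    have hq20 : (0 : ℝ) < q.2 := by exact_mod_cast h3
    have hNn' : (N₁ : ℝ) ≤ 2 * q.1 := by exact_mod_cast h10.le
    have hKk' : (K₁ : ℝ) ≤ 2 * q.2 := by exact_mod_cast h11.le
    refine ha2 L L' T (74 / 100 * Y) (Y / 50) _ hEB.L1 hEB.L1' hEB.T1 (by positivity) ?_ ?_ ?_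
    · refine le_trans ?_ a5
      gcongr
    · have e0 : (N₁ : ℝ) ^ 3 ≤ (2 * q.1) ^ 3 := pow_le_pow_left₀ hN10.le hNn' 3
      have e1 : (N₁ : ℝ) ^ 3 * K₁ * e ≤ (2 * q.1) ^ 3 * (2 * q.2) * e := by gcongr
      have e2 : (2 * (q.1 : ℝ)) ^ 3 * (2 * q.2) * e = 16 * ((q.1 : ℝ) ^ 3 * q.2 * e) := by ring
      linarith
    · intro t ht1 ht2 ht3 ht4 ht5 ht6 ht7
      rw [mem_filter]
      refine ⟨hF t ⟨ht1, ?_, ?_, ?_, ?_, ?_, ?_, ht6, ?_⟩ ht3, ht2⟩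
      · rw [ht2]
        exact h5
      · rw [ht2]
        show (q.1 : ℝ) ≤ _
        linarith
      · rw [ht2]
        exact h6
      · rw [ht2]
        show (q.2 : ℝ) ≤ _
        linarith
      · exact le_trans ht4 a7
      · exact le_trans ht5 a8
      · linarith
  choose! a ha using hex
  -- the sum over the pairs
  have hcard : ∑ q ∈ W, (F.filter (fun t => t.1 = q)).card ≤ F.card := by
    have h1 : ((F.filter (fun t => t.1 ∈ W)).card) = ∑ q ∈ W, ((F.filter (fun t => t.1 ∈ W)).filter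
        (fun t => t.1 = q)).card :=
      card_eq_sum_card_fiberwise (f := fun t : Tpl => t.1) (fun t ht => (mem_filter.1 ht).2)
    have h2 : ∀ q ∈ W, (F.filter (fun t => t.1 = q)).card = ((F.filter (fun t => t.1 ∈ W)).filter
        (fun t => t.1 = q)).card := by
      intro q hq
      congr 1
      ext t
      rw [mem_filter, mem_filter, mem_filter]
      constructor
      · rintro ⟨h3, h4⟩
        exact ⟨⟨h3, by rw [h4]; exact hq⟩, h4⟩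
      · rintro ⟨⟨h3, -⟩, h4⟩
        exact ⟨h3, h4⟩
    rw [sum_congr rfl h2, ← h1]
    exact card_le_card (filter_subset _ _)
  have hcardR : ∑ q ∈ W, ((F.filter (fun t => t.1 = q)).card : ℝ) ≤ F.card := by
    exact_mod_cast hcard
  have hsum : (W.card : ℝ) * ((L : ℝ) * L' / (CP * T)) ≤ F.card +
      CP / T * (√(L * L' : ℝ) * ∑ q ∈ W, NS L L' T e q.1 q.2 (a q)) := by
    have h1 : ∑ q ∈ W, (L : ℝ) * L' / (CP * T) ≤ ∑ q ∈ W, (((F.filter (fun t => t.1 = q)).card : ℝ) +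
        CP / T * (√(L * L' : ℝ) * NS L L' T e q.1 q.2 (a q))) :=
      sum_le_sum (fun q hq => (ha q hq).2)
    rw [sum_const, nsmul_eq_mul, sum_add_distrib, ← mul_sum, ← mul_sum] at h1
    linarith
  -- the sum of the near points
  have hNS := hS N₁ K₁ L L' T e 1 1 1 1 1 b ρ hEB he squarefree_one le_rfl le_rfl le_rfl le_rfl rfl W a hWsub
    (fun q hq => ⟨Nat.coprime_one_left _, (ha q hq).1⟩)
  have hbT : b ^ B * (T : ℝ) ^ (-τ) ≤ 1 := by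
    rw [Real.rpow_neg hT0.le, ← div_eq_mul_inv, div_le_one (Real.rpow_pos_of_pos hT0 _)]
    exact hbB
  set R : ℝ := ρ ^ (3 / 2 : ℝ) * ((T : ℝ) ^ (5 / 4 : ℝ) + N₁ * K₁ * (T : ℝ) ^ (1 / 4 : ℝ)) with hR
  have hR0 : 0 ≤ R := by
    have g1 : 0 ≤ ρ ^ (3 / 2 : ℝ) := Real.rpow_nonneg hρ _
    have g2 : 0 ≤ (T : ℝ) ^ (5 / 4 : ℝ) := Real.rpow_nonneg hT0.le _
    have g3 : 0 ≤ (T : ℝ) ^ (1 / 4 : ℝ) := Real.rpow_nonneg hT0.le _
    positivity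
  have hM0 : 0 ≤ (T : ℝ) * (N₁ * K₁) := by positivity
  have hNS2 : ∑ q ∈ W, NS L L' T e q.1 q.2 (a q) ≤ 2 * CS * (T * (N₁ * K₁) + R) := by
    refine hNS.trans ?_
    simp only [Nat.primeFactors_one, card_empty, zero_add, pow_one, Nat.cast_one, div_one]
    rw [← hR]
    have g2 : (T : ℝ) * (N₁ * K₁) + R * (1 + b ^ B * (T : ℝ) ^ (-τ)) ≤ 2 * (T * (N₁ * K₁) + R) := by
      have : R * (1 + b ^ B * (T : ℝ) ^ (-τ)) ≤ R * 2 := mul_le_mul_of_nonneg_left (by linarith) hR0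
      linarith
    calc CS * (T * (N₁ * K₁) + R * (1 + b ^ B * (T : ℝ) ^ (-τ)))
        ≤ CS * (2 * (T * (N₁ * K₁) + R)) := mul_le_mul_of_nonneg_left g2 (by linarith)
      _ = _ := by ring
  have hQ0 : 0 ≤ √(L * L' : ℝ) := Real.sqrt_nonneg _
  have herr : CP / T * (√(L * L' : ℝ) * ∑ q ∈ W, NS L L' T e q.1 q.2 (a q)) ≤
      2 * (CP * CS * C₁) * ((Y * Y₂) * (Y * Y₂ / N) ^ (3 / 2 : ℝ)) := by
    have hCS0 : 0 ≤ CS := by linarith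
    calc CP / T * (√(L * L' : ℝ) * ∑ q ∈ W, NS L L' T e q.1 q.2 (a q))
        ≤ CP / T * (√(L * L' : ℝ) * (2 * CS * (T * (N₁ * K₁) + R))) := by gcongr
      _ = 2 * (CP * CS) * (1 / (T : ℝ) * (√(L * L' : ℝ) * (T * (N₁ * K₁) + R))) := by
          field_simp
      _ ≤ 2 * (CP * CS) * (C₁ * ((Y * Y₂) * (Y * Y₂ / N) ^ (3 / 2 : ℝ))) :=
          mul_le_mul_of_nonneg_left a10 (by positivity)
      _ = _ := by ring
  -- the main term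
  have hmain : cc * c / CP / (e : ℝ) ^ 5 * (Y * Y₂) ≤ (W.card : ℝ) * ((L : ℝ) * L' / (CP * T)) := by
    calc cc * c / CP / (e : ℝ) ^ 5 * (Y * Y₂)
        = cc / (e : ℝ) ^ 2 / CP * (c * (Y * Y₂) / (e : ℝ) ^ 3) := by
          field_simp
      _ ≤ cc / (e : ℝ) ^ 2 / CP * (sN N Y Y₂ * sK N Y Y₂ * (L * L' / T)) :=
          mul_le_mul_of_nonneg_left a9 (by positivity)
      _ = cc / (e : ℝ) ^ 2 * (sN N Y Y₂ * sK N Y Y₂) * ((L : ℝ) * L' / (CP * T)) := by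
          field_simp
      _ ≤ _ := mul_le_mul_of_nonneg_right hWc (by positivity)
  have hfin : (cc * c / CP / (e : ℝ) ^ 5 - 2 * (CP * CS * C₁) * (Y * Y₂ / N) ^ (3 / 2 : ℝ)) * (Y * Y₂) =
      cc * c / CP / (e : ℝ) ^ 5 * (Y * Y₂) -
        2 * (CP * CS * C₁) * ((Y * Y₂) * (Y * Y₂ / N) ^ (3 / 2 : ℝ)) := by ring
  rw [hfin]
  linarith

end Pool.Agent.T6
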